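import Pool.Agent.Helper63.P705.NUM.Goals

/-! Packet NUM-N6 (MP_705522_gt): packed moments. -/

namespace Pool.Agent.Helper42.P705

open Pool.Agent.Helper63.P705
open Pool.Agent.Helper53.PT (mo m3 f0 f1 f2 nu mo_zero mo_one mo_pos aLAW)
open MeasureTheory

/-! ### The moments are nondecreasing in `j` -/

theorem mo_step {θ : ℝ} (h0 : 0 < θ) (h1 : θ < 1 / 2) (j : ℕ) : mo θ j ≤ mo θ (j + 1) := by
  obtain ⟨hp, -, hint, hm, -⟩ := aLAW h0 h1
  have hx : ∀ x : ℝ, 0 ≤ x → 0 ≤ (x ^ j - 1) * (x - 1) := by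
    intro x hx
    rcases le_total x 1 with h | h
    · exact mul_nonneg_of_nonpos_of_nonpos (by linarith [pow_le_one₀ (n := j) hx h]) (by linarith)
    · exact mul_nonneg (by linarith [one_le_pow₀ (n := j) h]) (by linarith)
  have h2 : 0 ≤ ∫ y, ((y ^ 2) ^ j - 1) * (y ^ 2 - 1) ∂(nu θ) :=
    integral_nonneg fun y => hx _ (sq_nonneg y)
  have h3 : ∀ y : ℝ, ((y ^ 2) ^ j - 1) * (y ^ 2 - 1) =
      y ^ (2 * (j + 1)) - y ^ (2 * j) - y ^ (2 * 1) + y ^ (2 * 0) := by
    intro y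
    rw [← pow_mul]
    ring
  simp only [h3] at h2
  have h4 : ∫ y, (y ^ (2 * (j + 1)) - y ^ (2 * j) - y ^ (2 * 1) + y ^ (2 * 0)) ∂(nu θ) =
      mo θ (j + 1) - mo θ j - mo θ 1 + mo θ 0 := by
    rw [integral_add (f := fun y : ℝ => y ^ (2 * (j + 1)) - y ^ (2 * j) - y ^ (2 * 1))
        (g := fun y : ℝ => y ^ (2 * 0)) (((hint _).sub (hint _)).sub (hint _)) (hint _),
      integral_sub (f := fun y : ℝ => y ^ (2 * (j + 1)) - y ^ (2 * j))
        (g := fun y : ℝ => y ^ (2 * 1)) ((hint _).sub (hint _)) (hint _),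
      integral_sub (f := fun y : ℝ => y ^ (2 * (j + 1))) (g := fun y : ℝ => y ^ (2 * j))
        (hint _) (hint _), hm, hm, hm, hm]
  rw [h4, mo_zero h0 (by linarith), mo_one h0 (by linarith)] at h2
  linarith

/-! ### The integer sequence -/

/-- the unpacked sequence -/
def aseq (R : ℕ) : ℕ → ℕ
  | 0 => 2 ^ 100
  | 1 => 32 * 2 ^ 100
  | (j + 2) => (aseq R (j + 1) * 32 * fld R 128 (j + 1) / (j + 2)) / 2 ^ 120

theorem aseq_zero (R : ℕ) : aseq R 0 = 2 ^ 100 := by rw [aseq]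
theorem aseq_one (R : ℕ) : aseq R 1 = 32 * 2 ^ 100 := by rw [aseq]
theorem aseq_succ (R j : ℕ) : aseq R (j + 2) =
    (aseq R (j + 1) * 32 * fld R 128 (j + 1) / (j + 2)) / 2 ^ 120 := by rw [aseq]

/-- one step of `apk` -/
def stp (R i aj A : ℕ) (k : ℕ → ℕ → ℕ) : ℕ :=
  k (aj * 32 * fld R 128 (119 - i) / (119 - i + 1) / 2 ^ 120)
    (A + (aj * 32 * fld R 128 (119 - i) / (119 - i + 1) / 2 ^ 120) * 2 ^ (160 * (119 - i + 1)))

theorem stp_eq (R : ℕ) : (fun i aj A k =>
      sq (Nat.sub (Nat.sub 120 1) i) fun j =>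
      sq (Nat.shiftRight (Nat.div (Nat.mul (Nat.mul aj 32) (fld R 128 j)) (Nat.succ j)) 120)
        fun aj' =>
      sq (Nat.add A (Nat.shiftLeft aj' (Nat.mul 160 (Nat.succ j)))) fun A' => k aj' A') =
    stp R := by
  funext i aj A k
  have e0 : ∀ x : ℕ, Nat.shiftRight x 120 = x / 2 ^ 120 := fun x => Nat.shiftRight_eq_div_pow x 120
  have e7 : ∀ x y z : ℕ, Nat.add x (Nat.shiftLeft y z) = x + y * 2 ^ z := fun x y z => by
    rw [← Nat.shiftLeft_eq]; rfl
  have e8 : Nat.sub (Nat.sub 120 1) i = 119 - i := rfl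
  simp only [sq_eq, e0, e7, e8]
  rfl

theorem apk_lp2 (R : ℕ) : apk 120 R = lp2 119 (stp R) (fun _ A => A) (32 * 2 ^ 100)
    (2 ^ 100 + 32 * 2 ^ 260) := by
  unfold apk
  rw [stp_eq]
  have e1 : Nat.shiftLeft 32 100 = 32 * 2 ^ 100 := Nat.shiftLeft_eq 32 100
  have e2 : Nat.add (Nat.shiftLeft 1 100) (Nat.shiftLeft 32 260) = 2 ^ 100 + 32 * 2 ^ 260 := by
    have h1 : Nat.shiftLeft 1 100 = 1 * 2 ^ 100 := Nat.shiftLeft_eq 1 100
    have h2 : Nat.shiftLeft 32 260 = 32 * 2 ^ 260 := Nat.shiftLeft_eq 32 260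
    rw [h1, h2, one_mul]
    rfl
  have e3 : Nat.sub 120 1 = 119 := rfl
  rw [e1, e2, e3]

theorem apk_aux (R : ℕ) : ∀ n i : ℕ, n + i = 119 →
    lp2 n (stp R) (fun _ A => A) (aseq R (i + 1))
      (∑ k ∈ Finset.range (i + 2), aseq R k * 2 ^ (160 * k)) =
    ∑ k ∈ Finset.range 121, aseq R k * 2 ^ (160 * k) := by
  intro n
  induction n with
  | zero =>
    intro i hi
    have : i = 119 := by omega
    subst this
    rw [lp2_zero]
  | succ n ih =>
    intro i hi
    rw [lp2_succ]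
    unfold stp
    have e1 : 119 - n = i + 1 := by omega
    rw [e1]
    have e6 : aseq R (i + 1) * 32 * fld R 128 (i + 1) / (i + 1 + 1) / 2 ^ 120 = aseq R (i + 2) :=
      (aseq_succ R i).symm
    rw [e6]
    have e7 : ∑ k ∈ Finset.range (i + 2), aseq R k * 2 ^ (160 * k) +
        aseq R (i + 2) * 2 ^ (160 * (i + 1 + 1)) =
        ∑ k ∈ Finset.range (i + 1 + 2), aseq R k * 2 ^ (160 * k) :=
      (Finset.sum_range_succ _ _).symm
    rw [e7]
    exact ih (i + 1) (by omega)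

theorem apk_eq (R : ℕ) : apk 120 R = ∑ k ∈ Finset.range 121, aseq R k * 2 ^ (160 * k) := by
  have h1 : ∑ k ∈ Finset.range (0 + 2), aseq R k * 2 ^ (160 * k) = 2 ^ 100 + 32 * 2 ^ 260 := by
    rw [show 0 + 2 = 2 from rfl, Finset.sum_range_succ, Finset.sum_range_succ,
      Finset.sum_range_zero, aseq_zero, aseq_one, mul_zero, pow_zero, mul_one, mul_one, zero_add,
      mul_assoc, ← pow_add]
  rw [← apk_aux R 119 0 rfl, apk_lp2, aseq_one, h1]

/-! ### The error -/

/-- the absolute part of the error -/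
noncomputable def gg : ℕ → ℝ
  | 0 => 0
  | 1 => 0
  | (j + 2) => 33 / ((j : ℝ) + 2) * gg (j + 1) + 1

theorem gg_nonneg : ∀ j, 0 ≤ gg j := by
  intro j
  induction j using Nat.strong_induction_on with
  | _ j ih =>
    match j with
    | 0 => exact le_rfl
    | 1 => exact le_rfl
    | (j + 2) =>
      have := ih (j + 1) (by omega)
      rw [gg]
      positivity

theorem num34 : ∀ j < 65, (65 - j) * j.factorial ≤ 2 * 34 ^ j ∨ j = 0 := by
  decide +kernel

theorem gg_le : ∀ j, gg j ≤ 2 * (34 ^ j / (j.factorial : ℝ)) + 2 := by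
  intro j
  induction j using Nat.strong_induction_on with
  | _ j ih =>
    match j with
    | 0 => rw [gg]; positivity
    | 1 => rw [gg]; positivity
    | (j + 2) =>
      have h1 := ih (j + 1) (by omega)
      rw [gg]
      have hf : ((j + 2).factorial : ℝ) = ((j : ℝ) + 2) * ((j + 1).factorial : ℝ) := by
        rw [Nat.factorial_succ (j + 1)]
        push_cast
        ring
      have hfp : (0 : ℝ) < ((j + 1).factorial : ℝ) := by positivity
      have hj : (0 : ℝ) < (j : ℝ) + 2 := by positivity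
      have key : (65 - ((j : ℝ) + 1)) * ((j + 1).factorial : ℝ) ≤ 2 * 34 ^ (j + 1) := by
        by_cases hj' : j + 1 < 65
        · rcases num34 (j + 1) hj' with h | h
          · have h2 : (((65 - (j + 1)) * (j + 1).factorial : ℕ) : ℝ) ≤ ((2 * 34 ^ (j + 1) : ℕ) : ℝ) := by
              exact_mod_cast h
            rw [Nat.cast_mul, Nat.cast_sub hj'.le] at h2
            push_cast at h2
            exact h2
          · omega
        · have : (65 : ℝ) ≤ (j : ℝ) + 1 := by exact_mod_cast (not_lt.1 hj')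
          have h3 : (65 - ((j : ℝ) + 1)) * ((j + 1).factorial : ℝ) ≤ 0 :=
            mul_nonpos_of_nonpos_of_nonneg (by linarith) hfp.le
          have h4 : (0 : ℝ) ≤ 2 * 34 ^ (j + 1) := by positivity
          linarith
      have h5 : 33 / ((j : ℝ) + 2) * gg (j + 1) ≤
          33 / ((j : ℝ) + 2) * (2 * (34 ^ (j + 1) / ((j + 1).factorial : ℝ)) + 2) := by gcongr
      have h6 : 33 / ((j : ℝ) + 2) * (2 * (34 ^ (j + 1) / ((j + 1).factorial : ℝ)) + 2) + 1 ≤
          2 * (34 ^ (j + 2) / ((j + 2).factorial : ℝ)) + 2 := by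
        rw [hf]
        have e : 2 * (34 ^ (j + 2) / (((j : ℝ) + 2) * ((j + 1).factorial : ℝ))) + 2 -
            (33 / ((j : ℝ) + 2) * (2 * (34 ^ (j + 1) / ((j + 1).factorial : ℝ)) + 2) + 1) =
            (2 * 34 ^ (j + 1) - (65 - ((j : ℝ) + 1)) * ((j + 1).factorial : ℝ)) /
              (((j : ℝ) + 2) * ((j + 1).factorial : ℝ)) := by
          field_simp
          ring
        have h7 : 0 ≤ (2 * 34 ^ (j + 1) - (65 - ((j : ℝ) + 1)) * ((j + 1).factorial : ℝ)) /
              (((j : ℝ) + 2) * ((j + 1).factorial : ℝ)) :=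
          div_nonneg (by linarith) (by positivity)
        linarith
      linarith

theorem step {T T' aj x r ρ c η h δ : ℝ} (hT : 0 ≤ T) (hT' : T' = c * r * T) (hc : 0 ≤ c)
    (hr : 0 ≤ r) (hr1 : r ≤ 1) (hδ : 0 ≤ δ) (hρ0 : 0 ≤ ρ) (hρ : |ρ - r| ≤ δ * r)
    (hx : |x - c * ρ * aj| ≤ 1) (he : |aj - T| ≤ T * η + h) (hη : 0 ≤ η) (hh : 0 ≤ h) :
    |x - T'| ≤ T' * ((1 + δ) * η + δ) + c * (1 + δ) * h + 1 := by
  have e1 : x - T' = (x - c * ρ * aj) + c * ρ * (aj - T) + c * (ρ - r) * T := by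
    rw [hT']; ring
  have h1 : |c * ρ * (aj - T)| ≤ c * ρ * (T * η + h) := by
    rw [abs_mul, abs_of_nonneg (mul_nonneg hc hρ0)]
    exact mul_le_mul_of_nonneg_left he (mul_nonneg hc hρ0)
  have h2 : |c * (ρ - r) * T| ≤ δ * T' := by
    rw [abs_mul, abs_mul, abs_of_nonneg hc, abs_of_nonneg hT, hT']
    calc c * |ρ - r| * T ≤ c * (δ * r) * T := by gcongr
      _ = δ * (c * r * T) := by ring
  have h3 : ρ ≤ (1 + δ) * r := by
    have := (abs_le.1 hρ).2
    linarith
  have h4 : c * ρ * (T * η + h) ≤ c * ((1 + δ) * r) * (T * η + h) := by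
    have : 0 ≤ T * η + h := by positivity
    gcongr
  have h5 : c * ((1 + δ) * r) * (T * η + h) ≤ T' * ((1 + δ) * η) + c * (1 + δ) * h := by
    have : c * ((1 + δ) * r) * (T * η + h) = c * r * T * ((1 + δ) * η) + c * (1 + δ) * h * r := by
      ring
    rw [this, hT']
    have h6 : c * (1 + δ) * h * r ≤ c * (1 + δ) * h * 1 := by
      have : 0 ≤ c * (1 + δ) * h := by positivity
      gcongr
    linarith
  rw [e1]
  calc |(x - c * ρ * aj) + c * ρ * (aj - T) + c * (ρ - r) * T|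
      ≤ |x - c * ρ * aj| + |c * ρ * (aj - T)| + |c * (ρ - r) * T| := abs_add_three _ _ _
    _ ≤ 1 + (T' * ((1 + δ) * η) + c * (1 + δ) * h) + δ * T' := by linarith
    _ = _ := by ring

theorem fl (m n : ℕ) (hn : 0 < n) : |((m / n : ℕ) : ℝ) - (m : ℝ) / n| ≤ 1 := by
  have h1 : ((n * (m / n) + m % n : ℕ) : ℝ) = (m : ℝ) := by rw [Nat.div_add_mod]
  have hn' : (0 : ℝ) < (n : ℝ) := by exact_mod_cast hn
  have h2 : ((m % n : ℕ) : ℝ) < (n : ℝ) := by exact_mod_cast Nat.mod_lt m hn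
  have h3 : (m : ℝ) / n = ((m / n : ℕ) : ℝ) + ((m % n : ℕ) : ℝ) / n := by
    rw [← h1, Nat.cast_add, Nat.cast_mul]
    field_simp
  have h4 : (0 : ℝ) ≤ ((m % n : ℕ) : ℝ) / n := by positivity
  have h5 : ((m % n : ℕ) : ℝ) / n ≤ 1 := by
    rw [div_le_one hn']
    exact h2.le
  rw [h3, abs_le]
  constructor <;> linarith

theorem exp32 : Real.exp 32 ≤ 2 ^ 47 := by
  have h : Real.exp 32 = Real.exp 1 ^ 32 := by
    rw [← Real.exp_nat_mul]
    norm_num
  rw [h]
  calc Real.exp 1 ^ 32 ≤ 2.72 ^ 32 := by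
        have := Real.exp_one_lt_d9.le
        gcongr
        linarith
    _ ≤ 2 ^ 47 := by norm_num

theorem exp34 : Real.exp 34 ≤ 2 ^ 50 := by
  have h : Real.exp 34 = Real.exp 1 ^ 34 := by
    rw [← Real.exp_nat_mul]
    norm_num
  rw [h]
  calc Real.exp 1 ^ 34 ≤ 2.72 ^ 34 := by
        have := Real.exp_one_lt_d9.le
        gcongr
        linarith
    _ ≤ 2 ^ 50 := by norm_num

theorem keyl {T u v c g : ℝ} (hT : 0 ≤ T) (hv : 0 ≤ v) (hc : c ≤ 4) (hg : g ≤ (u - 4 * v) * T) :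
    T * (c * v) + g ≤ u * T := by
  have : T * (c * v) ≤ T * (4 * v) := by gcongr
  linarith

theorem n6 : N6 := by
  intro hR a ha1 ha2
  obtain ⟨hr, hR0, hRj⟩ := hR a ha1 ha2
  obtain ⟨θ, hθ⟩ : ∃ θ : ℝ, θ = (a : ℝ) / 8192 := ⟨_, rfl⟩
  have hacf : acf a = apk 120 (rpk GT a 120) := by
    unfold acf
    rw [sq_eq]
  rw [hacf]
  obtain ⟨R, hRdef⟩ : ∃ R : ℕ, R = rpk GT a 120 := ⟨_, rfl⟩
  rw [← hRdef]
  rw [← hRdef] at hR0 hRj
  simp only [← hθ] at hr hRj ⊢
  have a1 : (2048 : ℝ) ≤ (a : ℝ) := by exact_mod_cast ha1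
  have a2 : (a : ℝ) < 4096 := by exact_mod_cast ha2
  have h0 : 0 < θ := by rw [hθ]; positivity
  have h1 : θ < 1 / 2 := by rw [hθ]; linarith
  clear hR hacf hRdef
  have hmp : ∀ j, 0 < mo θ j := fun j => mo_pos h0 (by linarith) j
  have hm1 : ∀ j, 1 ≤ mo θ j := by
    intro j
    induction j with
    | zero => rw [mo_zero h0 (by linarith)]
    | succ j ih => exact ih.trans (mo_step h0 h1 j)
  -- the coefficients
  have hf2 : ∀ j : ℕ, ((2 * (j + 1)).factorial : ℝ) =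
      (2 * (j : ℝ) + 2) * (2 * j + 1) * ((2 * j).factorial : ℝ) := by
    intro j
    rw [show 2 * (j + 1) = (2 * j + 1) + 1 by ring, Nat.factorial_succ, Nat.factorial_succ]
    push_cast
    ring
  have hal : ∀ j : ℕ, al θ (j + 1) = rj θ j * al θ j / (2 * ((j : ℝ) + 1)) := by
    intro j
    have h2 := hmp j
    have h3 : (0 : ℝ) < ((2 * j).factorial : ℝ) := by positivity
    have h4 : (0 : ℝ) < 2 * (j : ℝ) + 1 := by positivity
    rw [al, al, rj, hf2]
    field_simp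
  have hal0 : al θ 0 = 1 := by
    rw [al, mo_zero h0 (by linarith)]
    norm_num
  have halp : ∀ j, 0 < al θ j := fun j => div_pos (hmp j) (by positivity)
  have halb : ∀ j : ℕ, al θ j ≤ 1 / (2 ^ j * (j.factorial : ℝ)) := by
    intro j
    induction j with
    | zero => rw [hal0]; norm_num
    | succ j ih =>
      rw [hal, Nat.factorial_succ]
      have h2 := (hr j).2
      have h3 : rj θ j * al θ j ≤ 1 * (1 / (2 ^ j * (j.factorial : ℝ))) := by
        have := halp j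
        gcongr
      have h5 : 1 * (1 / (2 ^ j * (j.factorial : ℝ))) / (2 * ((j : ℝ) + 1)) =
          1 / (2 ^ (j + 1) * (((j + 1) * j.factorial : ℕ) : ℝ)) := by
        push_cast
        field_simp
        ring
      calc rj θ j * al θ j / (2 * ((j : ℝ) + 1))
          ≤ 1 * (1 / (2 ^ j * (j.factorial : ℝ))) / (2 * ((j : ℝ) + 1)) := by gcongr
        _ = _ := h5
  have hT1 : ∀ j : ℕ, Tj θ (j + 1) = 32 / ((j : ℝ) + 1) * rj θ j * Tj θ j := by
    intro j
    rw [Tj, Tj, hal]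
    field_simp
    ring
  have hTp : ∀ j, 0 < Tj θ j := fun j => by
    have := halp j
    unfold Tj
    positivity
  have hTe : ∀ j : ℕ, Tj θ j ≤ 2 ^ 100 * (32 ^ j / (j.factorial : ℝ)) := by
    intro j
    unfold Tj
    calc 2 ^ 100 * 64 ^ j * al θ j ≤ 2 ^ 100 * 64 ^ j * (1 / (2 ^ j * (j.factorial : ℝ))) := by
          have := halb j
          gcongr
      _ = 2 ^ 100 * (32 ^ j / (j.factorial : ℝ)) := by
          rw [show (64 : ℝ) ^ j = 32 ^ j * 2 ^ j by rw [← mul_pow]; norm_num]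
          field_simp
  have hrlow : ∀ j : ℕ, j ≤ 120 → 2⁻¹ ^ 8 ≤ rj θ j := by
    intro j hj
    unfold rj
    have h2 := hmp j
    have h3 := mo_step h0 h1 j
    have h4 : (j : ℝ) ≤ 120 := by exact_mod_cast hj
    rw [le_div_iff₀ (by positivity)]
    calc 2⁻¹ ^ 8 * ((2 * (j : ℝ) + 1) * mo θ j) = (2⁻¹ ^ 8 * (2 * (j : ℝ) + 1)) * mo θ j := by ring
      _ ≤ 1 * mo θ j := by
          have : (2⁻¹ : ℝ) ^ 8 * (2 * (j : ℝ) + 1) ≤ 1 := by
            norm_num
            linarith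
          gcongr
      _ ≤ mo θ (j + 1) := by rw [one_mul]; exact h3
  -- the error
  obtain ⟨δ, hδ⟩ : ∃ δ : ℝ, δ = 2⁻¹ ^ 103 + 2⁻¹ ^ 112 := ⟨_, rfl⟩
  have hδ0 : 0 ≤ δ := by rw [hδ]; positivity
  have hT0 : Tj θ 0 = 2 ^ 100 := by
    unfold Tj
    rw [hal0]
    norm_num
  have hr0 : rj θ 0 = 1 := by
    unfold rj
    rw [mo_zero h0 (by linarith), zero_add, mo_one h0 (by linarith)]
    norm_num
  have hmain : ∀ j : ℕ, j ≤ 120 →
      |((aseq R j : ℕ) : ℝ) - Tj θ j| ≤ Tj θ j * ((j : ℝ) * 2⁻¹ ^ 102) + gg j := by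
    intro j
    induction j using Nat.strong_induction_on with
    | _ j ih =>
      match j with
      | 0 =>
        intro _
        have e : ((2 ^ 100 : ℕ) : ℝ) = 2 ^ 100 := by rw [Nat.cast_pow, Nat.cast_ofNat]
        rw [aseq_zero, hT0, gg, e, sub_self, abs_zero, Nat.cast_zero, zero_mul, mul_zero, add_zero]
      | 1 =>
        intro _
        rw [aseq_one, hT1, hT0, hr0, gg]
        have : (((32 * 2 ^ 100 : ℕ) : ℝ) - 32 / (((0 : ℕ) : ℝ) + 1) * 1 * 2 ^ 100) = 0 := by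
          push_cast
          norm_num
        rw [this, abs_zero]
        positivity
      | (i + 2) =>
        intro hi
        have h2 := ih (i + 1) (by omega) (by omega)
        obtain ⟨F, hF⟩ : ∃ F : ℕ, F = fld R 128 (i + 1) := ⟨_, rfl⟩
        have h3 := (hRj (i + 1) (by omega) (by omega)).2
        rw [← hF] at h3
        have h4 := (hr (i + 1))
        have h5 := hrlow (i + 1) (by omega)
        obtain ⟨ρ, hρ⟩ : ∃ ρ : ℝ, ρ = (F : ℝ) / 2 ^ 120 := ⟨_, rfl⟩
        have hρ0 : 0 ≤ ρ := by rw [hρ]; positivity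
        have h6 : |ρ - rj θ (i + 1)| ≤ δ * rj θ (i + 1) := by
          have e1 : ρ - rj θ (i + 1) = ((F : ℝ) - 2 ^ 120 * rj θ (i + 1)) / 2 ^ 120 := by
            rw [hρ]
            field_simp
          rw [e1, abs_div, abs_of_pos (by positivity : (0 : ℝ) < 2 ^ 120),
            div_le_iff₀ (by positivity)]
          refine h3.trans ?_
          have e2 : δ * rj θ (i + 1) * 2 ^ 120 = 2⁻¹ ^ 103 * (2 ^ 120 * rj θ (i + 1)) +
              2 ^ 8 * rj θ (i + 1) := by
            rw [hδ]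
            ring
          rw [e2]
          have e3 : (1 : ℝ) ≤ 2 ^ 8 * rj θ (i + 1) := by
            calc (1 : ℝ) = 2 ^ 8 * 2⁻¹ ^ 8 := by norm_num
              _ ≤ _ := by gcongr
          linarith
        have h7 : |((aseq R (i + 2) : ℕ) : ℝ) - 32 / ((i : ℝ) + 2) * ρ * ((aseq R (i + 1) : ℕ) : ℝ)| ≤
            1 := by
          rw [aseq_succ, Nat.div_div_eq_div_mul, ← hF]
          have e1 : 32 / ((i : ℝ) + 2) * ρ * ((aseq R (i + 1) : ℕ) : ℝ) =
              ((aseq R (i + 1) * 32 * F : ℕ) : ℝ) / (((i + 2) * 2 ^ 120 : ℕ) : ℝ) := by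
            rw [hρ]
            push_cast
            field_simp
            ring
          rw [e1]
          exact fl _ _ (by positivity)
        have hT2 := hT1 (i + 1)
        have ec : (32 : ℝ) / (((i + 1 : ℕ) : ℝ) + 1) = 32 / ((i : ℝ) + 2) := by
          push_cast
          congr 1
          ring
        rw [ec] at hT2
        have h8 := step (hTp (i + 1)).le hT2 (by positivity) h4.1.le h4.2 hδ0 hρ0 h6 h7 h2
          (by positivity) (gg_nonneg _)
        refine h8.trans ?_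
        have h9 : (1 + δ) * (((i + 1 : ℕ) : ℝ) * 2⁻¹ ^ 102) + δ ≤ ((i + 2 : ℕ) : ℝ) * 2⁻¹ ^ 102 := by
          have e1 : ((i + 2 : ℕ) : ℝ) * 2⁻¹ ^ 102 = ((i + 1 : ℕ) : ℝ) * 2⁻¹ ^ 102 + 2⁻¹ ^ 102 := by
            push_cast
            ring
          rw [e1]
          have e2 : ((i + 1 : ℕ) : ℝ) ≤ 120 := by exact_mod_cast (by omega : i + 1 ≤ 120)
          have e3 : δ * (((i + 1 : ℕ) : ℝ) * 2⁻¹ ^ 102) ≤ δ * (120 * 2⁻¹ ^ 102) := by gcongr
          have e4 : δ * (120 * 2⁻¹ ^ 102) + δ ≤ 2⁻¹ ^ 102 := by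
            rw [hδ]
            norm_num
          linarith
        have h10 : 32 / ((i : ℝ) + 2) * (1 + δ) * gg (i + 1) ≤ 33 / ((i : ℝ) + 2) * gg (i + 1) := by
          have e1 : 32 / ((i : ℝ) + 2) * (1 + δ) ≤ 33 / ((i : ℝ) + 2) := by
            rw [div_mul_eq_mul_div]
            have : 32 * (1 + δ) ≤ 33 := by
              rw [hδ]
              norm_num
            gcongr
          exact mul_le_mul_of_nonneg_right e1 (gg_nonneg _)
        have h11 : Tj θ (i + 1 + 1) * ((1 + δ) * (((i + 1 : ℕ) : ℝ) * 2⁻¹ ^ 102) + δ) ≤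
            Tj θ (i + 2) * (((i + 2 : ℕ) : ℝ) * 2⁻¹ ^ 102) :=
          mul_le_mul_of_nonneg_left h9 (hTp _).le
        rw [gg]
        linarith
  have hexp : ∀ j : ℕ, Tj θ j ≤ 2 ^ 147 := by
    intro j
    refine (hTe j).trans ?_
    calc (2 : ℝ) ^ 100 * (32 ^ j / (j.factorial : ℝ)) ≤ 2 ^ 100 * Real.exp 32 := by
          have := Real.pow_div_factorial_le_exp (x := 32) (by norm_num) j
          gcongr
      _ ≤ 2 ^ 100 * 2 ^ 47 := by
          have := exp32
          gcongr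
      _ = 2 ^ 147 := by norm_num
  have hgg : ∀ j : ℕ, gg j ≤ 2 ^ 52 := by
    intro j
    refine (gg_le j).trans ?_
    have := Real.pow_div_factorial_le_exp (x := 34) (by norm_num) j
    have := exp34
    norm_num at this ⊢
    linarith
  have hlt : ∀ j : ℕ, j < 121 → aseq R j < 2 ^ 160 := by
    intro j hj
    have h2 := (abs_le.1 (hmain j (by omega))).2
    have h3 := hexp j
    have h4 := hgg j
    have h5 : (j : ℝ) ≤ 120 := by exact_mod_cast (by omega : j ≤ 120)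
    have h6 : Tj θ j * ((j : ℝ) * 2⁻¹ ^ 102) ≤ 2 ^ 147 * (120 * 2⁻¹ ^ 102) := by
      have := hTp j
      gcongr
    have h7 : ((aseq R j : ℕ) : ℝ) < ((2 ^ 160 : ℕ) : ℝ) := by
      push_cast
      have h8 : (2 : ℝ) ^ 147 + 2 ^ 147 * (120 * 2⁻¹ ^ 102) + 2 ^ 52 < 2 ^ 160 := by norm_num
      linarith
    exact_mod_cast h7
  have hfld : ∀ j : ℕ, j < 121 → fld (apk 120 R) 160 j = aseq R j := by
    intro j hj
    rw [apk_eq]
    exact fld_sum 160 121 (aseq R) hlt j hj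
  refine ⟨fun j => ⟨halp j, halb j⟩, ?_, ?_⟩
  · calc ∑ j ∈ Finset.range 121, |(fld (apk 120 R) 160 j : ℝ) - Tj θ j|
        ≤ ∑ j ∈ Finset.range 121, (2 ^ 5 * (32 ^ j / (j.factorial : ℝ)) +
          (2 * (34 ^ j / (j.factorial : ℝ)) + 2)) := by
          refine Finset.sum_le_sum fun j hj => ?_
          have hj' := Finset.mem_range.1 hj
          rw [hfld j hj']
          refine (hmain j (by omega)).trans (add_le_add ?_ (gg_le j))
          have h5 : (j : ℝ) ≤ 128 := by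
            have : (j : ℝ) ≤ 120 := by exact_mod_cast (by omega : j ≤ 120)
            linarith
          calc Tj θ j * ((j : ℝ) * 2⁻¹ ^ 102)
              ≤ 2 ^ 100 * (32 ^ j / (j.factorial : ℝ)) * (128 * 2⁻¹ ^ 102) := by
                have := hTe j
                gcongr
            _ = 2 ^ 5 * (32 ^ j / (j.factorial : ℝ)) := by
                have : (2 : ℝ) ^ 100 * (128 * 2⁻¹ ^ 102) = 2 ^ 5 := by norm_num
                calc _ = (2 : ℝ) ^ 100 * (128 * 2⁻¹ ^ 102) * (32 ^ j / (j.factorial : ℝ)) := by ring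
                  _ = _ := by rw [this]
      _ = 2 ^ 5 * ∑ j ∈ Finset.range 121, (32 ^ j / (j.factorial : ℝ)) +
          (2 * ∑ j ∈ Finset.range 121, (34 ^ j / (j.factorial : ℝ)) + 242) := by
          rw [Finset.sum_add_distrib, Finset.sum_add_distrib, Finset.mul_sum, Finset.mul_sum,
            Finset.sum_const, Finset.card_range]
          norm_num
      _ ≤ 2 ^ 5 * Real.exp 32 + (2 * Real.exp 34 + 242) := by
          have h2 := Real.sum_le_exp_of_nonneg (x := 32) (by norm_num) 121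
          have h3 := Real.sum_le_exp_of_nonneg (x := 34) (by norm_num) 121
          gcongr
      _ ≤ 2 ^ 5 * 2 ^ 47 + (2 * 2 ^ 50 + 242) := by
          have := exp32
          have := exp34
          gcongr
      _ ≤ 2 ^ 57 := by norm_num
  · intro j hj
    rw [hfld j (by omega)]
    refine (hmain j (by omega)).trans ?_
    have hlow : 2 ^ 100 * 64 ^ j / ((2 * j).factorial : ℝ) ≤ Tj θ j := by
      unfold Tj al
      have h2 := hm1 j
      rw [mul_div_assoc]
      calc (2 : ℝ) ^ 100 * (64 ^ j / ((2 * j).factorial : ℝ))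
          = 2 ^ 100 * 64 ^ j * (1 / ((2 * j).factorial : ℝ)) := by ring
        _ ≤ 2 ^ 100 * 64 ^ j * (mo θ j / ((2 * j).factorial : ℝ)) := by gcongr
    have hTj := hTp j
    have key : ∀ (c g : ℝ), c ≤ 4 → g ≤ (2⁻¹ ^ 95 - 4 * 2⁻¹ ^ 102) * Tj θ j →
        Tj θ j * (c * 2⁻¹ ^ 102) + g ≤ 2⁻¹ ^ 95 * Tj θ j := by
      intro c g hc hg
      exact keyl hTj.le (by positivity) hc hg
    have gg2 : gg 2 = 1 := by
      rw [gg, gg]
      norm_num
    have gg3 : gg 3 = 12 := by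
      rw [gg, gg2]
      norm_num
    have gg4 : gg 4 = 100 := by
      rw [gg, gg3]
      norm_num
    have hcoef : ((2 : ℝ)⁻¹ ^ 95 - 4 * 2⁻¹ ^ 102) * 2 ^ 100 = 31 := by norm_num
    have hcoef0 : (0 : ℝ) ≤ 2⁻¹ ^ 95 - 4 * 2⁻¹ ^ 102 := by norm_num
    have fin : ∀ g : ℝ, g ≤ 31 * (64 ^ j / ((2 * j).factorial : ℝ)) →
        g ≤ (2⁻¹ ^ 95 - 4 * 2⁻¹ ^ 102) * Tj θ j := fun g hg => by
      refine hg.trans (le_trans (le_of_eq ?_) (mul_le_mul_of_nonneg_left hlow hcoef0))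
      rw [mul_div_assoc, ← mul_assoc, hcoef]
    interval_cases j
    · refine key _ _ (by norm_num) (fin _ ?_)
      rw [show gg 0 = 0 from rfl]
      positivity
    · refine key _ _ (by norm_num) (fin _ ?_)
      rw [show gg 1 = 0 from rfl]
      positivity
    · refine key _ _ (by norm_num) (fin _ ?_)
      rw [gg2]
      norm_num [Nat.factorial]
    · refine key _ _ (by norm_num) (fin _ ?_)
      rw [gg3]
      norm_num [Nat.factorial]
    · refine key _ _ (by norm_num) (fin _ ?_)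
      rw [gg4]
      norm_num [Nat.factorial]

end Pool.Agent.Helper42.P705
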